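import Mathlib

namespace Pool.Agent.H865Z.Saw

/-- `w` is a vertex of the half-plane self-avoiding tree: the list of sites of a finite
self-avoiding nearest-neighbour walk in the upper half-plane started at the origin, listed from
the last site back to the origin. -/
def IsHalfWalk (w : List (ℤ × ℤ)) : Prop :=
  w.Nodup ∧ w.getLast? = some ((0 : ℤ), (0 : ℤ)) ∧
    (∀ i : ℕ, i + 1 < w.length →
      |(w.getD i ((0 : ℤ), (0 : ℤ))).1 - (w.getD (i + 1) ((0 : ℤ), (0 : ℤ))).1|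
        + |(w.getD i ((0 : ℤ), (0 : ℤ))).2 - (w.getD (i + 1) ((0 : ℤ), (0 : ℤ))).2| = 1) ∧
    ∀ p ∈ w, (0 : ℤ) ≤ p.2

/-- There is a unit flow from the root to infinity on the half-plane self-avoiding tree with finite
energy for the conductances `b ^ level`; `θ w` is the flow through the edge from the parent of `w`
into `w`. -/
def HasFiniteEnergyFlow (b : ℝ) : Prop :=
  ∃ θ : List (ℤ × ℤ) → ℝ,
    (∀ w : List (ℤ × ℤ), ¬ IsHalfWalk w → θ w = 0) ∧
    θ [((0 : ℤ), (0 : ℤ))] = 1 ∧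
    (∀ w : List (ℤ × ℤ), IsHalfWalk w →
      θ w = (([((1 : ℤ), (0 : ℤ)), ((-1 : ℤ), (0 : ℤ)), ((0 : ℤ), (1 : ℤ)), ((0 : ℤ), (-1 : ℤ))]
        : List (ℤ × ℤ)).map (fun d => θ ((w.headD ((0 : ℤ), (0 : ℤ)) + d) :: w))).sum) ∧
    Summable (fun w : List (ℤ × ℤ) => θ w ^ 2 / b ^ w.length)

end Pool.Agent.H865Z.Saw
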