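import Mathlib
import Pool.Agent.H865Z.Saw.Defs

namespace Pool.Agent.H865Z.Saw

open scoped ENNReal

abbrev V := ℤ × ℤ

def dir : Fin 4 → V := ![(1, 0), (-1, 0), (0, 1), (0, -1)]

def hd (w : List V) : V := w.headD (0, 0)

def child (d : Fin 4) (w : List V) : List V := (hd w + dir d) :: w

def go : List V → List (Fin 4) → List V
  | w, [] => w
  | w, d :: t => go (child d w) t

def endp : V → List (Fin 4) → V
  | p, [] => p
  | p, d :: t => endp (p + dir d) t

def Stay (R : Set V) : V → List (Fin 4) → Prop
  | _, [] => True
  | p, d :: t => p ∈ R ∧ Stay R (p + dir d) t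

@[simp] lemma hd_cons (p : V) (w : List V) : hd (p :: w) = p := rfl

@[simp] lemma hd_child (d : Fin 4) (w : List V) : hd (child d w) = hd w + dir d := rfl

lemma child_ne_nil (d : Fin 4) (w : List V) : child d w ≠ [] := by simp [child]

lemma dir_injective : Function.Injective dir := by decide

lemma hd_go (w : List V) (t : List (Fin 4)) : hd (go w t) = endp (hd w) t := by
  induction t generalizing w with
  | nil => rfl
  | cons d t ih => simp [go, endp, ih]

lemma length_go (w : List V) (t : List (Fin 4)) : (go w t).length = w.length + t.length := by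
  induction t generalizing w with
  | nil => rfl
  | cons d t ih => simp [go, ih, child]; omega

lemma go_append (w : List V) (t r : List (Fin 4)) : go w (t ++ r) = go (go w t) r := by
  induction t generalizing w with
  | nil => rfl
  | cons d t ih => simp [go, ih]

lemma suffix_go (w : List V) (t : List (Fin 4)) : w <:+ go w t := by
  induction t generalizing w with
  | nil => exact List.suffix_refl _
  | cons d t ih => exact (List.suffix_cons _ _).trans (ih (child d w))

lemma go_ne_nil {w : List V} (hw : w ≠ []) (t : List (Fin 4)) : go w t ≠ [] := by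
  intro h
  have := suffix_go w t
  rw [h] at this
  exact hw (List.suffix_nil.mp this)

lemma go_injective (w : List V) : Function.Injective (go w) := by
  intro t t' h
  induction t generalizing w t' with
  | nil =>
    have := congrArg List.length h
    simp [length_go] at this
    exact this.symm
  | cons d t ih =>
    cases t' with
    | nil =>
      have := congrArg List.length h
      simp [length_go] at this
    | cons d' t' =>
      simp only [go] at h
      have h1 := suffix_go (child d w) t
      have h2 := suffix_go (child d' w) t'
      rw [h] at h1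
      have h3 : child d w = child d' w := by
        rcases List.suffix_or_suffix_of_suffix h1 h2 with h4 | h4
        · exact h4.eq_of_length (by simp [child])
        · exact (h4.eq_of_length (by simp [child])).symm
      have hdd : d = d' := by
        simp only [child, List.cons.injEq, add_right_inj, and_true] at h3
        exact dir_injective h3
      subst hdd
      rw [ih _ h]

lemma go_app_left {w : List V} (hw : w ≠ []) (w1 : List V) (t : List (Fin 4)) :
    go (w ++ w1) t = go w t ++ w1 := by
  induction t generalizing w with
  | nil => rfl
  | cons d t ih =>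
    simp only [go]
    rw [← ih (child_ne_nil d w)]
    congr 1
    cases w with
    | nil => exact absurd rfl hw
    | cons p w => simp [child]

lemma go_map (f : V → V) (σ : Fin 4 → Fin 4) (hf : ∀ p d, f (p + dir d) = f p + dir (σ d))
    {w : List V} (hw : w ≠ []) (t : List (Fin 4)) :
    go (w.map f) (t.map σ) = (go w t).map f := by
  induction t generalizing w with
  | nil => rfl
  | cons d t ih =>
    simp only [go, List.map_cons]
    rw [← ih (child_ne_nil d w)]
    congr 1
    cases w with
    | nil => exact absurd rfl hw
    | cons p w => simp [child, hf]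

lemma endp_map (f : V → V) (σ : Fin 4 → Fin 4) (hf : ∀ p d, f (p + dir d) = f p + dir (σ d))
    (p : V) (t : List (Fin 4)) : endp (f p) (t.map σ) = f (endp p t) := by
  induction t generalizing p with
  | nil => rfl
  | cons d t ih => simp only [endp, List.map_cons]; rw [← hf, ih]

lemma stay_map (f : V → V) (σ : Fin 4 → Fin 4) (hf : ∀ p d, f (p + dir d) = f p + dir (σ d))
    {R R' : Set V} (hR : ∀ v ∈ R, f v ∈ R') {p : V} {t : List (Fin 4)} (h : Stay R p t) :
    Stay R' (f p) (t.map σ) := by
  induction t generalizing p with
  | nil => trivial
  | cons d t ih =>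
    refine ⟨hR _ h.1, ?_⟩
    rw [← hf]
    exact ih h.2

lemma stay_append {R : Set V} {p : V} {t r : List (Fin 4)} {d : Fin 4}
    (h : Stay R p (t ++ d :: r)) : endp p t ∈ R := by
  induction t generalizing p with
  | nil => exact h.1
  | cons e t ih => exact ih h.2

lemma mem_tail_go {R : Set V} {w : List V} (hw : w ≠ []) {t : List (Fin 4)}
    (h : Stay R (hd w) t) : ∀ v ∈ (go w t).tail, v ∈ R ∨ v ∈ w.tail := by
  induction t generalizing w with
  | nil => intro v hv; exact Or.inr hv
  | cons d t ih =>
    intro v hv
    rcases ih (child_ne_nil d w) h.2 v hv with h1 | h1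
    · exact Or.inl h1
    · cases w with
      | nil => exact absurd rfl hw
      | cons p w =>
        simp only [child, List.tail_cons, List.mem_cons] at h1
        rcases h1 with h1 | h1
        · left; rw [h1]; exact h.1
        · exact Or.inr h1

/-- last step raises a coordinate by at most one -/
lemma endp_le (u : V → ℤ) (hu : ∀ p d, u (p + dir d) ≤ u p + 1) {R : Set V} {k : ℤ}
    (hR : ∀ v ∈ R, u v < k) {p : V} (hp : u p ≤ k) {t : List (Fin 4)} (h : Stay R p t) :
    u (endp p t) ≤ k := by
  induction t generalizing p with
  | nil => exact hp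
  | cons d t ih =>
    refine ih ?_ h.2
    have := hR _ h.1
    have := hu p d
    omega

lemma tsum_list (F : List (Fin 4) → ℝ≥0∞) :
    ∑' t, F t = F [] + ∑ d, ∑' t, F (d :: t) := by
  let e : Unit ⊕ (Fin 4 × List (Fin 4)) ≃ List (Fin 4) :=
    { toFun := fun o => match o with
        | Sum.inl _ => []
        | Sum.inr x => x.1 :: x.2
      invFun := fun l => match l with
        | [] => Sum.inl ()
        | d :: t => Sum.inr (d, t)
      left_inv := by rintro (_ | ⟨d, t⟩) <;> rfl
      right_inv := by rintro (_ | ⟨d, t⟩) <;> rfl }
  rw [← e.tsum_eq, Summable.tsum_sum ENNReal.summable ENNReal.summable, ENNReal.tsum_prod',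
    tsum_fintype, tsum_fintype]
  simp [e]

/-- vertical bridges of span `T` -/
def Br (T : ℤ) (t : List (Fin 4)) : Prop :=
  (go [(0, 0)] t).Nodup ∧ Stay {v | 0 ≤ v.2 ∧ v.2 < T} (0, 0) t ∧ (endp (0, 0) t).2 = T

open Classical in
noncomputable def W (c : ℝ≥0∞) (T : ℤ) : ℝ≥0∞ := ∑' t, if Br T t then c ^ t.length else 0

end Pool.Agent.H865Z.Saw
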