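import Mathlib
import Pool.Agent.H865Z.Saw.Basic

namespace Pool.Agent.H865Z.Saw

open scoped ENNReal
open Filter Topology

structure Sub (c : ℝ≥0∞) (g : List V → ℝ≥0∞) : Prop where
  nil : g [] = 0
  nodup : ∀ w, g w ≠ 0 → w.Nodup
  sub : ∀ w, g w ≤ ∑ d, g (child d w)
  energy : ∑' w, g w ^ 2 / c ^ w.length ≠ ⊤

def Null (c : ℝ≥0∞) (R : Set V) : Prop :=
  ∀ g, Sub c g → (∀ w, g w ≠ 0 → hd w ∈ R) → ∀ w, g w = 0

lemma Sub.mono {c : ℝ≥0∞} {g g' : List V → ℝ≥0∞} (h : Sub c g) (hle : ∀ w, g' w ≤ g w)
    (hs : ∀ w, g' w ≤ ∑ d, g' (child d w)) : Sub c g' where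
  nil := le_antisymm (h.nil ▸ hle []) zero_le
  nodup := fun w hw => h.nodup w (fun h0 => hw (le_antisymm (h0 ▸ hle w) zero_le))
  sub := hs
  energy := ne_top_of_le_ne_top h.energy (ENNReal.tsum_le_tsum fun w => by
    gcongr
    exact hle w)

lemma Null.mono {c : ℝ≥0∞} {R R' : Set V} (h : Null c R') (hR : R ⊆ R') : Null c R :=
  fun g hg hs => h g hg fun w hw => hR (hs w hw)

lemma null_empty (c : ℝ≥0∞) : Null c ∅ := fun g _ hs w => by
  by_contra h
  exact hs w h

lemma hd_mem {w : List V} (hw : w ≠ []) : hd w ∈ w := by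
  cases w with
  | nil => exact absurd rfl hw
  | cons p w => simp

lemma null_point {c : ℝ≥0∞} {R : Set V} {p : V} (h : Null c (R \ {p})) : Null c R := by
  classical
  intro g hg hs
  let g1 : List V → ℝ≥0∞ := fun w => if p ∈ w.tail then g w else 0
  have hle : ∀ w, g1 w ≤ g w := fun w => by
    simp only [g1]; split_ifs <;> simp
  have hg1 : Sub c g1 := hg.mono hle fun w => by
    simp only [g1]
    split_ifs with hp
    · refine (hg.sub w).trans (le_of_eq (Finset.sum_congr rfl fun d _ => ?_))
      rw [if_pos]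
      simpa [child] using List.mem_of_mem_tail hp
    · exact zero_le
  have h0 : ∀ w, g1 w = 0 := h g1 hg1 fun w hw => by
    have hp : p ∈ w.tail := by
      by_contra hp
      exact hw (by simp [g1, hp])
    have hgw : g w ≠ 0 := fun h0 => hw (by simp [g1, h0])
    refine ⟨hs w hgw, ?_⟩
    have hn := hg.nodup w hgw
    cases w with
    | nil => simp at hp
    | cons q w =>
      simp only [List.tail_cons] at hp
      simp only [hd_cons, Set.mem_singleton_iff]
      rintro rfl
      exact (List.nodup_cons.mp hn).1 hp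
  have h1 : ∀ w, p ∈ w → g w = 0 := fun w hw => by
    refine le_antisymm ((hg.sub w).trans (le_of_eq (Finset.sum_eq_zero fun d _ => ?_))) zero_le
    have := h0 (child d w)
    simpa [g1, child, hw] using this
  refine h g hg fun w hw => ⟨hs w hw, ?_⟩
  simp only [Set.mem_singleton_iff]
  intro hp
  have hne : w ≠ [] := by rintro rfl; exact hw hg.nil
  exact hw (h1 w (hp ▸ hd_mem hne))

lemma null_finite {c : ℝ≥0∞} {C : Set V} (hC : C.Finite) :
    ∀ {R : Set V}, Null c (R \ C) → Null c R := by
  induction C, hC using Set.Finite.induction_on with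
  | empty => intro R h; simpa using h
  | @insert p C _ _ ih =>
    intro R h
    refine ih (null_point (p := p) (h.mono ?_))
    intro v hv
    simp only [Set.mem_sdiff, Set.mem_singleton_iff, Set.mem_insert_iff] at hv ⊢
    tauto

lemma null_of_finite {c : ℝ≥0∞} {C : Set V} (hC : C.Finite) : Null c C :=
  null_finite hC (by simpa using null_empty c)

lemma null_union {c : ℝ≥0∞} {A B : Set V} (hA : Null c A) (hB : Null c B)
    (hAB : ∀ p ∈ A, ∀ d, p + dir d ∉ B) : Null c (A ∪ B) := by
  classical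
  intro g hg hs
  let g1 : List V → ℝ≥0∞ := fun w => if hd w ∈ A then g w else 0
  have hle : ∀ w, g1 w ≤ g w := fun w => by
    simp only [g1]; split_ifs <;> simp
  have hg1 : Sub c g1 := hg.mono hle fun w => by
    simp only [g1]
    split_ifs with hp
    · refine (hg.sub w).trans (le_of_eq (Finset.sum_congr rfl fun d _ => ?_))
      split_ifs with hq
      · rfl
      · by_contra hne
        rcases hs _ hne with h1 | h1
        · exact hq h1
        · exact hAB _ hp d h1
    · exact zero_le
  have h0 : ∀ w, g1 w = 0 := hA g1 hg1 fun w hw => by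
    by_contra hp
    exact hw (by simp [g1, hp])
  refine hB g hg fun w hw => ?_
  rcases hs w hw with h1 | h1
  · exact absurd (by simpa [g1, h1] using h0 w) hw
  · exact h1

open Classical in
noncomputable def S (R : Set V) (g : List V → ℝ≥0∞) (w : List V) : ℝ≥0∞ :=
  ∑' t, if Stay R (hd w) t ∧ endp (hd w) t ∉ R then g (go w t) else 0

lemma S_of_not_mem {R : Set V} {g : List V → ℝ≥0∞} {w : List V} (h : hd w ∉ R) :
    S R g w = g w := by
  unfold S
  rw [tsum_list]
  simp [Stay, endp, go, h]

lemma S_of_mem {R : Set V} {g : List V → ℝ≥0∞} {w : List V} (h : hd w ∈ R) :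
    S R g w = ∑ d, S R g (child d w) := by
  conv_lhs => unfold S
  rw [tsum_list]
  have h1 : ¬ (Stay R (hd w) [] ∧ endp (hd w) [] ∉ R) := fun h2 => h2.2 h
  rw [if_neg h1, zero_add]
  refine Finset.sum_congr rfl fun d _ => ?_
  unfold S
  refine tsum_congr fun t => ?_
  by_cases h2 : Stay R (hd (child d w)) t ∧ endp (hd (child d w)) t ∉ R
  · rw [if_pos ⟨⟨h, h2.1⟩, h2.2⟩, if_pos h2]; rfl
  · rw [if_neg (fun h3 => h2 ⟨h3.1.2, h3.2⟩), if_neg h2]

lemma le_S {c : ℝ≥0∞} {R : Set V} (hR : Null c R) {g : List V → ℝ≥0∞} (hg : Sub c g)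
    (w : List V) : g w ≤ S R g w := by
  let g1 : List V → ℝ≥0∞ := fun w => g w - S R g w
  have hg1 : Sub c g1 := hg.mono (fun w => tsub_le_self) fun w => by
    simp only [g1]
    by_cases h : hd w ∈ R
    · rw [S_of_mem h, tsub_le_iff_right, ← Finset.sum_add_distrib]
      exact (hg.sub w).trans (Finset.sum_le_sum fun d _ => le_tsub_add)
    · rw [S_of_not_mem h]; simp
  have h0 := hR g1 hg1 (fun w hw => by
    by_contra h
    exact hw (by simp [g1, S_of_not_mem h])) w
  exact tsub_eq_zero_iff_le.mp h0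

lemma amgm (g x l : ℝ≥0∞) (hx0 : x ≠ 0) (hxt : x ≠ ⊤) (hl0 : l ≠ 0) (hlt : l ≠ ⊤) :
    g ≤ l * (g ^ 2 / x) + x / l := by
  by_cases h : g ≤ x / l
  · exact h.trans le_add_self
  · push Not at h
    refine le_trans ?_ le_self_add
    have h1 : x ≤ l * g := by
      have := h.le
      rw [ENNReal.div_le_iff hl0 hlt] at this
      rwa [mul_comm]
    calc g = g * x / x := by rw [ENNReal.mul_div_cancel_right hx0 hxt]
      _ ≤ g * (l * g) / x := by gcongr
      _ = l * (g ^ 2 / x) := by
        rw [← mul_div_assoc]; congr 1; ring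

/-- A lattice symmetry, with the induced action on steps. -/
structure Symm where
  ρ : V → V
  σ : Fin 4 → Fin 4
  inj : Function.Injective ρ
  σinj : Function.Injective σ
  step : ∀ p d, ρ (p + dir d) = ρ p + dir (σ d)

lemma dir_snd_le (d : Fin 4) : (dir d).2 ≤ 1 := by revert d; decide

lemma nw_base {c : ℝ≥0∞} (hc0 : c ≠ 0) (hct : c ≠ ⊤) (hW : ∀ T : ℤ, 1 ≤ T → W c T ≤ 1)
    (s : Symm) {R : Set V} {a : ℤ} (hRa : ∀ v ∈ R, a ≤ (s.ρ v).2)
    (hN : ∀ k : ℤ, Null c (R ∩ {v | (s.ρ v).2 < k})) {g : List V → ℝ≥0∞} (hg : Sub c g)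
    (hs : ∀ w, g w ≠ 0 → hd w ∈ R) (w : List V) (hw : (s.ρ (hd w)).2 = a) : g w = 0 := by
  classical
  by_cases hne : w = []
  · rw [hne]; exact hg.nil
  obtain ⟨p, w1, rfl⟩ := List.exists_cons_of_ne_nil hne
  simp only [hd_cons] at hw
  set e : List V → ℝ≥0∞ := fun v => g v ^ 2 / c ^ v.length with he
  let E : ℕ → ℝ≥0∞ := fun j => ∑' v, if (s.ρ (hd v)).2 = a + 1 + j then e v else 0
  have hE : ∑' j, E j ≠ ⊤ := by
    refine ne_top_of_le_ne_top hg.energy ?_
    simp only [E]
    rw [ENNReal.tsum_comm]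
    refine ENNReal.tsum_le_tsum fun v => ?_
    by_cases h : ∃ j : ℕ, (s.ρ (hd v)).2 = a + 1 + j
    · obtain ⟨j, hj⟩ := h
      rw [tsum_eq_single j]
      · simp [hj, he]
      · intro j' hj'
        rw [if_neg]
        rw [hj]
        intro h
        exact hj' (by omega)
    · push Not at h
      simp [h]
  have hE0 : Tendsto E atTop (𝓝 0) := ENNReal.tendsto_atTop_zero_of_tsum_ne_top hE
  let K : ℝ≥0∞ := c ^ (p :: w1).length
  have hKt : K ≠ ⊤ := ENNReal.pow_ne_top hct
  have key : ∀ (j : ℕ) (l : ℝ≥0∞), l ≠ 0 → l ≠ ⊤ → g (p :: w1) ≤ l * E j + K / l := by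
    intro j l hl0 hlt
    let k : ℤ := a + 1 + j
    let f : V → V := fun v => s.ρ v - s.ρ p
    have hf : ∀ q d, f (q + dir d) = f q + dir (s.σ d) := fun q d => by
      simp only [f, s.step]; abel
    have hfinj : Function.Injective f := fun x y h => s.inj (sub_left_injective h)
    have hfp : f p = (0, 0) := by simp only [f, sub_self]; rfl
    refine (le_S (hN k) hg (p :: w1)).trans ?_
    unfold S
    simp only [hd_cons]
    calc _ ≤ ∑' t : List (Fin 4), (l * (if (s.ρ (hd (go (p :: w1) t))).2 = a + 1 + j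
              then e (go (p :: w1) t) else 0) +
            K / l * (if Br (1 + j) (t.map s.σ) then c ^ (t.map s.σ).length else 0)) := by
          refine ENNReal.tsum_le_tsum fun t => ?_
          split_ifs with h1 h2 h3 h3
          all_goals try exact zero_le
          · refine (amgm _ (c ^ (go (p :: w1) t).length) l (pow_ne_zero _ hc0)
              (ENNReal.pow_ne_top hct) hl0 hlt).trans (le_of_eq ?_)
            simp only [he, length_go, pow_add, K, List.length_map]
            congr 1
            rw [ENNReal.mul_div_right_comm]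
          all_goals
            by_cases hz : g (go (p :: w1) t) = 0
            · rw [hz]; exact zero_le
            exfalso
            have hin := hs _ hz
            rw [hd_go, hd_cons] at hin
            have hle : (s.ρ (endp p t)).2 ≤ k := by
              refine endp_le (fun v => (s.ρ v).2) (fun q d => ?_) (fun v hv => hv.2) ?_ h1.1
              · simp only [s.step, Prod.snd_add]
                have := dir_snd_le (s.σ d)
                omega
              · simp only [k]; omega
            have hge : k ≤ (s.ρ (endp p t)).2 := by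
              by_contra hlt'
              exact h1.2 ⟨hin, by simpa using hlt'⟩
            have heq : (s.ρ (endp p t)).2 = a + 1 + j := le_antisymm hle hge
          · apply h3
            refine ⟨?_, ?_, ?_⟩
            · have hn := hg.nodup _ hz
              have h4 : go (p :: w1) t = go [p] t ++ w1 :=
                go_app_left (w := [p]) (by simp) w1 t
              rw [h4] at hn
              have h5 := go_map f s.σ hf (w := [p]) (by simp) t
              simp only [List.map_cons, List.map_nil, hfp] at h5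
              rw [h5]
              exact (List.Nodup.of_append_left hn).map hfinj
            · rw [← hfp]
              refine stay_map f s.σ hf (fun v hv => ?_) h1.1
              have h6 := hRa v hv.1
              have h7 : (s.ρ v).2 < k := hv.2
              simp only [f, Set.mem_ofPred_eq, Prod.snd_sub, hw]
              simp only [k] at h7
              omega
            · rw [← hfp, endp_map f s.σ hf]
              simp only [f, Prod.snd_sub, hw, heq]
              ring
          · exact h2 (by rw [hd_go, hd_cons]; exact heq)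
          · exact h2 (by rw [hd_go, hd_cons]; exact heq)
      _ ≤ l * E j + K / l * W c (1 + j) := by
          rw [ENNReal.tsum_add, ENNReal.tsum_mul_left, ENNReal.tsum_mul_left]
          gcongr
          · exact ENNReal.tsum_comp_le_tsum_of_injective (go_injective (p :: w1))
              (fun v => if (s.ρ (hd v)).2 = a + 1 + j then e v else 0)
          · exact ENNReal.tsum_comp_le_tsum_of_injective (List.map_injective_iff.mpr s.σinj)
              (fun t => if Br (1 + j) t then c ^ t.length else 0)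
      _ ≤ l * E j + K / l * 1 := by
          gcongr
          exact hW _ (by omega)
      _ = _ := by rw [mul_one]
  have key2 : ∀ l : ℝ≥0∞, l ≠ 0 → l ≠ ⊤ → g (p :: w1) ≤ K / l := by
    intro l hl0 hlt
    have h1 : Tendsto (fun j => l * E j + K / l) atTop (𝓝 (l * 0 + K / l)) :=
      (ENNReal.Tendsto.const_mul hE0 (Or.inr hlt)).add tendsto_const_nhds
    have := ge_of_tendsto' h1 fun j => key j l hl0 hlt
    simpa using this
  have h2 : Tendsto (fun n : ℕ => K / ((n : ℝ≥0∞) + 1)) atTop (𝓝 0) := by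
    have h3 : Tendsto (fun n : ℕ => K * ((n + 1 : ℕ) : ℝ≥0∞)⁻¹) atTop (𝓝 (K * 0)) :=
      ENNReal.Tendsto.const_mul
        (ENNReal.tendsto_inv_nat_nhds_zero.comp (tendsto_add_atTop_nat 1)) (Or.inr hKt)
    simpa [div_eq_mul_inv] using h3
  exact le_antisymm (ge_of_tendsto' h2 fun n => key2 _ (by simp) (by simp)) zero_le

lemma nw {c : ℝ≥0∞} (hc0 : c ≠ 0) (hct : c ≠ ⊤) (hW : ∀ T : ℤ, 1 ≤ T → W c T ≤ 1)
    (s : Symm) {R : Set V} {a : ℤ} (hRa : ∀ v ∈ R, a ≤ (s.ρ v).2)
    (hN : ∀ k : ℤ, Null c (R ∩ {v | (s.ρ v).2 < k})) : Null c R := by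
  have main : ∀ (m : ℕ) (a : ℤ) (R : Set V), (∀ v ∈ R, a ≤ (s.ρ v).2) →
      (∀ k : ℤ, Null c (R ∩ {v | (s.ρ v).2 < k})) → ∀ g, Sub c g →
      (∀ w, g w ≠ 0 → hd w ∈ R) → ∀ w, (s.ρ (hd w)).2 ≤ a + m → g w = 0 := by
    intro m
    induction m with
    | zero =>
      intro a R hRa hN g hg hs w hw
      by_contra h
      have := hRa _ (hs w h)
      exact h (nw_base hc0 hct hW s hRa hN hg hs w (by omega))
    | succ m ih =>
      intro a R hRa hN g hg hs w hw
      refine ih (a + 1) (R ∩ {v | a + 1 ≤ (s.ρ v).2}) (fun v hv => hv.2)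
        (fun k => (hN k).mono fun v hv => ⟨hv.1.1, hv.2⟩) g hg (fun v hv => ⟨hs v hv, ?_⟩) w
        (by push_cast at hw; omega)
      have h1 := hRa _ (hs v hv)
      have h2 : (s.ρ (hd v)).2 ≠ a := fun h => hv (nw_base hc0 hct hW s hRa hN hg hs v h)
      simp only [Set.mem_ofPred_eq]
      omega
  intro g hg hs w
  exact main ((s.ρ (hd w)).2 - a).toNat a R hRa hN g hg hs w (by omega)

def symUp : Symm where
  ρ := id
  σ := id
  inj := Function.injective_id
  σinj := Function.injective_id
  step := fun _ _ => rfl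

def symRight : Symm where
  ρ := fun v => (v.2, v.1)
  σ := ![2, 3, 0, 1]
  inj := fun x y h => by
    simp only [Prod.mk.injEq] at h
    exact Prod.ext h.2 h.1
  σinj := by decide
  step := fun p d => by
    fin_cases d <;> simp [dir]

def symLeft : Symm where
  ρ := fun v => (v.2, -v.1)
  σ := ![3, 2, 0, 1]
  inj := fun x y h => by
    simp only [Prod.mk.injEq, neg_inj] at h
    exact Prod.ext h.2 h.1
  σinj := by decide
  step := fun p d => by
    fin_cases d <;> simp [dir, add_comm]

lemma box_finite (a b c d : ℤ) : {v : V | a ≤ v.1 ∧ v.1 ≤ b ∧ c ≤ v.2 ∧ v.2 ≤ d}.Finite := by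
  refine ((Set.finite_Icc a b).prod (Set.finite_Icc c d)).subset ?_
  intro v hv
  exact ⟨⟨hv.1, hv.2.1⟩, hv.2.2⟩

lemma dir_fst_ge (d : Fin 4) : (dir d).1 ≤ 1 := by revert d; decide

theorem null_half {c : ℝ≥0∞} (hc0 : c ≠ 0) (hct : c ≠ ⊤) (hW : ∀ T : ℤ, 1 ≤ T → W c T ≤ 1) :
    Null c {v | 0 ≤ v.2} := by
  refine nw hc0 hct hW symUp (a := 0) (fun v hv => hv) fun k => ?_
  have hR : Null c {v : V | 1 ≤ v.1 ∧ 0 ≤ v.2 ∧ v.2 ≤ k} := by
    refine nw hc0 hct hW symRight (a := 1) (fun v hv => hv.1) fun j => ?_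
    refine null_of_finite ((box_finite 1 j 0 k).subset fun v hv => ?_)
    have h1 : v.1 < j := hv.2
    exact ⟨hv.1.1, h1.le, hv.1.2⟩
  have hL : Null c {v : V | v.1 ≤ -1 ∧ 0 ≤ v.2 ∧ v.2 ≤ k} := by
    refine nw hc0 hct hW symLeft (a := 1) (fun v hv => ?_) fun j => ?_
    · have h1 := hv.1
      show 1 ≤ -v.1
      omega
    refine null_of_finite ((box_finite (-j) (-1) 0 k).subset fun v hv => ?_)
    have h1 : -v.1 < j := hv.2
    exact ⟨by omega, hv.1.1, hv.1.2⟩
  have hU := null_union hL hR fun p hp d h => by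
    have h1 := hp.1
    have h2 : 1 ≤ (p + dir d).1 := h.1
    have h3 := dir_fst_ge d
    simp only [Prod.fst_add] at h2
    omega
  refine null_finite (box_finite 0 0 0 k) (hU.mono fun v hv => ?_)
  obtain ⟨⟨h1, h2⟩, h3⟩ := hv
  have h1 : 0 ≤ v.2 := h1
  have h2 : v.2 < k := h2
  simp only [Set.mem_ofPred_eq, Set.mem_union] at h3 ⊢
  omega

end Pool.Agent.H865Z.Saw
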