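import Mathlib
import Pool.Agent.H865Z.Saw.Null

namespace Pool.Agent.H865Z.Saw

open scoped ENNReal
open Filter Topology

def vl : List (Fin 4) → List V
  | [] => [(0, 0)]
  | d :: s => child d (vl s)

lemma vl_ne_nil (s : List (Fin 4)) : vl s ≠ [] := by
  cases s <;> simp [vl, child]

lemma length_vl (s : List (Fin 4)) : (vl s).length = s.length + 1 := by
  induction s with
  | nil => rfl
  | cons d s ih => simp [vl, child, ih]

lemma vl_injective : Function.Injective vl := by
  intro s s' h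
  induction s generalizing s' with
  | nil =>
    have := congrArg List.length h
    simp [length_vl] at this
    exact this.symm
  | cons d s ih =>
    cases s' with
    | nil =>
      have := congrArg List.length h
      simp [length_vl] at this
    | cons d' s' =>
      simp only [vl, child, List.cons.injEq] at h
      have h1 := ih h.2
      subst h1
      have h2 := h.1
      rw [add_right_inj] at h2
      rw [dir_injective h2]

def Adj (w : List V) : Prop :=
  ∀ i : ℕ, i + 1 < w.length →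
    |(w.getD i ((0 : ℤ), (0 : ℤ))).1 - (w.getD (i + 1) ((0 : ℤ), (0 : ℤ))).1|
      + |(w.getD i ((0 : ℤ), (0 : ℤ))).2 - (w.getD (i + 1) ((0 : ℤ), (0 : ℤ))).2| = 1

lemma adj_cons (p q : V) (w : List V) :
    Adj (p :: q :: w) ↔ (|p.1 - q.1| + |p.2 - q.2| = 1) ∧ Adj (q :: w) := by
  constructor
  · intro h
    refine ⟨by simpa using h 0 (by simp), fun i hi => ?_⟩
    have := h (i + 1) (by simpa using hi)
    simpa using this
  · rintro ⟨h1, h2⟩ i hi
    cases i with
    | zero => simpa using h1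
    | succ i =>
      have := h2 i (by simpa using hi)
      simpa using this

lemma adj_iff (p q : V) : (|p.1 - q.1| + |p.2 - q.2| = 1) ↔ ∃ d, p = q + dir d := by
  obtain ⟨a, b⟩ := p
  obtain ⟨x, y⟩ := q
  simp only [Fin.exists_fin_succ, dir]
  simp
  rcases abs_cases (a - x) with h | h <;> rcases abs_cases (b - y) with h' | h' <;> omega

lemma vl_adj (s : List (Fin 4)) : (vl s).getLast? = some (0, 0) ∧ Adj (vl s) := by
  induction s with
  | nil => exact ⟨rfl, fun i hi => by simp [vl] at hi⟩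
  | cons d s ih =>
    obtain ⟨q, w, hq⟩ := List.exists_cons_of_ne_nil (vl_ne_nil s)
    simp only [vl, child]
    rw [hq] at ih ⊢
    refine ⟨by simpa using ih.1, (adj_cons _ _ _).mpr ⟨(adj_iff _ _).mpr ⟨d, rfl⟩, ih.2⟩⟩

lemma exists_vl {w : List V} (h1 : w.getLast? = some (0, 0)) (h2 : Adj w) : ∃ s, w = vl s := by
  induction w with
  | nil => simp at h1
  | cons p w ih =>
    cases w with
    | nil =>
      simp at h1
      exact ⟨[], by rw [h1]; rfl⟩
    | cons q w =>
      obtain ⟨h3, h4⟩ := (adj_cons _ _ _).mp h2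
      obtain ⟨s, hs⟩ := ih (by simpa using h1) h4
      obtain ⟨d, hd'⟩ := (adj_iff _ _).mp h3
      refine ⟨d :: s, ?_⟩
      simp only [vl, child, ← hs, hd_cons, hd']

def Good (w : List V) : Prop := w.Nodup ∧ ∀ p ∈ w, (0 : ℤ) ≤ p.2

lemma Good.suffix {w w' : List V} (h : Good w) (hs : w' <:+ w) : Good w' :=
  ⟨h.1.sublist hs.sublist, fun p hp => h.2 p (hs.subset hp)⟩

lemma halfWalk_vl {s : List (Fin 4)} (h : Good (vl s)) : IsHalfWalk (vl s) :=
  ⟨h.1, (vl_adj s).1, (vl_adj s).2, h.2⟩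

lemma br_concat {T : ℤ} (hT : 1 ≤ T) {w0 : List V} (hne : w0 ≠ []) (hg : Good w0)
    (htail : ∀ v ∈ w0.tail, v.2 < (hd w0).2) {t : List (Fin 4)} (ht : Br T t) :
    Good (go w0 t) ∧ ∀ v ∈ (go w0 t).tail, v.2 < (hd (go w0 t)).2 := by
  obtain ⟨p, w1, rfl⟩ := List.exists_cons_of_ne_nil hne
  simp only [List.tail_cons, hd_cons] at htail
  let f : V → V := fun v => v + p
  have hf : ∀ q d, f (q + dir d) = f q + dir (id d) := fun q d => by
    simp only [f, id]; abel
  have hf0 : f (0, 0) = p := by simp only [f]; exact zero_add p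
  have hst : Stay {v | p.2 ≤ v.2 ∧ v.2 < p.2 + T} p t := by
    have := stay_map f id hf (R' := {v | p.2 ≤ v.2 ∧ v.2 < p.2 + T}) (fun v hv => by
      obtain ⟨h1, h2⟩ := hv
      simp only [f, Set.mem_ofPred_eq, Prod.snd_add]
      omega) ht.2.1
    rwa [hf0, List.map_id] at this
  have hend : (endp p t).2 = p.2 + T := by
    have := endp_map f id hf (0, 0) t
    rw [hf0, List.map_id] at this
    rw [this]
    simp only [f, Prod.snd_add, ht.2.2]
    ring
  have hp0 : 0 ≤ p.2 := hg.2 p (by simp)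
  have h4 : go (p :: w1) t = go [p] t ++ w1 := go_app_left (w := [p]) (by simp) w1 t
  have h5 : go [p] t = (go [(0, 0)] t).map f := by
    have := go_map f id hf (w := [(0, 0)]) (by simp) t
    simpa [hf0] using this
  have h6 : ∀ v ∈ go [p] t, p.2 ≤ v.2 := by
    intro v hv
    obtain ⟨q, w2, hq⟩ := List.exists_cons_of_ne_nil (go_ne_nil (w := [p]) (by simp) t)
    have h7 := hd_go [p] t
    have h8 := mem_tail_go (w := [p]) (by simp) hst
    rw [hq] at hv h7 h8
    simp only [hd_cons, List.tail_cons] at h7 h8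
    rcases List.mem_cons.mp hv with h9 | h9
    · rw [h9, h7, hend]; omega
    · rcases h8 v h9 with h | h
      · exact h.1
      · simp at h
  refine ⟨⟨?_, ?_⟩, ?_⟩
  · rw [h4, List.nodup_append]
    refine ⟨?_, (List.nodup_cons.mp hg.1).2, ?_⟩
    · rw [h5]
      exact ht.1.map (add_left_injective p)
    · intro a ha b hb hab
      have := h6 a ha
      have := htail b hb
      rw [hab] at *
      omega
  · intro v hv
    rw [h4] at hv
    rcases List.mem_append.mp hv with h | h
    · exact hp0.trans (h6 v h)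
    · exact hg.2 v (by simp [h])
  · intro v hv
    rw [hd_go, hd_cons, hend]
    rcases mem_tail_go (w := p :: w1) (by simp) hst v hv with h | h
    · exact h.2
    · have := htail v h
      omega

lemma br_prefix {T : ℤ} {t t' : List (Fin 4)} (ht : Br T t) (ht' : Br T t') (h : t <+: t') :
    t = t' := by
  obtain ⟨r, rfl⟩ := h
  cases r with
  | nil => simp
  | cons d r =>
    have h1 := (stay_append ht'.2.1).2
    rw [ht.2.2] at h1
    exact absurd h1 (lt_irrefl _)

lemma br_ne_nil {T : ℤ} (hT : 1 ≤ T) : ¬ Br T [] := fun h => by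
  have := h.2.2
  simp [endp] at this
  omega

section construction

variable (F : Finset (List (Fin 4))) (β : ℝ)

def st : List (Fin 4) → List (Fin 4)
  | [] => []
  | d :: s => if st s ++ [d] ∈ F then [] else st s ++ [d]

noncomputable def Q (r : List (Fin 4)) : ℝ := ∑ t ∈ F, if r <+: t then β ^ t.length else 0

noncomputable def phi (s : List (Fin 4)) : ℝ := β ^ s.length / β ^ (st F s).length * Q F β (st F s)

variable {F β}

lemma Q_nonneg (hβ : 0 < β) (r : List (Fin 4)) : 0 ≤ Q F β r :=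
  Finset.sum_nonneg fun t _ => by split_ifs <;> positivity

lemma Q_ne_zero {r : List (Fin 4)} (h : Q F β r ≠ 0) : ∃ t ∈ F, r <+: t := by
  obtain ⟨t, ht, h1⟩ := Finset.exists_ne_zero_of_sum_ne_zero h
  exact ⟨t, ht, by by_contra h2; exact h1 (if_neg h2)⟩

lemma Q_pos (hβ : 0 < β) {r t : List (Fin 4)} (ht : t ∈ F) (h : r <+: t) : Q F β r ≠ 0 := by
  refine ne_of_gt (Finset.sum_pos' (fun t _ => by split_ifs <;> positivity) ⟨t, ht, ?_⟩)
  rw [if_pos h]; positivity

lemma Q_le (hβ : 0 < β) (hsum : ∑ t ∈ F, β ^ t.length = 1) (r : List (Fin 4)) : Q F β r ≤ 1 := by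
  rw [← hsum]
  exact Finset.sum_le_sum fun t _ => by split_ifs <;> first | rfl | positivity

lemma Q_nil (hsum : ∑ t ∈ F, β ^ t.length = 1) : Q F β [] = 1 := by
  simp [Q, hsum]

lemma Q_mem {T : ℤ} (hF : ∀ t ∈ F, Br T t) {r : List (Fin 4)} (hr : r ∈ F) :
    Q F β r = β ^ r.length := by
  unfold Q
  rw [Finset.sum_eq_single r]
  · simp
  · intro t ht hne
    rw [if_neg]
    intro h
    exact hne (br_prefix (hF r hr) (hF t ht) h).symm
  · intro h; exact absurd hr h

lemma Q_split {r : List (Fin 4)} (hr : r ∉ F) : Q F β r = ∑ d, Q F β (r ++ [d]) := by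
  unfold Q
  rw [Finset.sum_comm]
  refine Finset.sum_congr rfl fun t ht => ?_
  split_ifs with h
  · obtain ⟨x, rfl⟩ := h
    cases x with
    | nil => exact absurd (by simpa using ht) hr
    | cons e x =>
      rw [Finset.sum_eq_single e]
      · rw [if_pos]
        exact ⟨x, by simp⟩
      · intro d _ hde
        rw [if_neg]
        intro h
        rw [List.prefix_append_right_inj] at h
        exact hde (by simpa using h)
      · simp
  · refine (Finset.sum_eq_zero fun d _ => ?_).symm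
    rw [if_neg]
    intro h1
    exact h ((List.prefix_append r [d]).trans h1)

lemma st_not_mem {T : ℤ} (hT : 1 ≤ T) (hF : ∀ t ∈ F, Br T t) (s : List (Fin 4)) :
    st F s ∉ F := by
  have h0 : [] ∉ F := fun h => br_ne_nil hT (hF _ h)
  cases s with
  | nil => exact h0
  | cons d s =>
    simp only [st]
    split_ifs with h
    · exact h0
    · exact h

lemma phi_nonneg (hβ : 0 < β) (s : List (Fin 4)) : 0 ≤ phi F β s :=
  mul_nonneg (by positivity) (Q_nonneg hβ _)

lemma phi_split {T : ℤ} (hT : 1 ≤ T) (hF : ∀ t ∈ F, Br T t) (hβ : 0 < β)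
    (hsum : ∑ t ∈ F, β ^ t.length = 1) (s : List (Fin 4)) :
    phi F β s = ∑ d, phi F β (d :: s) := by
  conv_lhs => unfold phi
  rw [Q_split (st_not_mem hT hF s), Finset.mul_sum]
  refine Finset.sum_congr rfl fun d _ => ?_
  unfold phi
  simp only [st]
  split_ifs with h
  · rw [Q_mem hF h, Q_nil hsum]
    simp only [List.length_append, List.length_cons, List.length_nil]
    field_simp
    ring
  · simp only [List.length_append, List.length_cons, List.length_nil]
    field_simp
    ring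

lemma inv_st {T : ℤ} (hT : 1 ≤ T) (hF : ∀ t ∈ F, Br T t) (hβ : 0 < β) (s : List (Fin 4))
    (h : Q F β (st F s) ≠ 0) : ∃ w0 : List V, w0 ≠ [] ∧ vl s = go w0 (st F s) ∧ Good w0 ∧
      ∀ v ∈ w0.tail, v.2 < (hd w0).2 := by
  induction s with
  | nil => exact ⟨[(0, 0)], by simp, rfl, ⟨by simp, by simp⟩, by simp⟩
  | cons d s ih =>
    simp only [st] at h ⊢
    split_ifs at h ⊢ with h1
    · obtain ⟨w0, h2, h3, h4, h5⟩ := ih (Q_pos hβ h1 (List.prefix_append _ _))
      have h6 := br_concat hT h2 h4 h5 (hF _ h1)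
      refine ⟨go w0 (st F s ++ [d]), go_ne_nil h2 _, ?_, h6.1, h6.2⟩
      simp only [vl, go_append, go, h3]
    · obtain ⟨t, ht, h7⟩ := Q_ne_zero h
      obtain ⟨w0, h2, h3, h4, h5⟩ := ih (Q_pos hβ ht ((List.prefix_append _ _).trans h7))
      refine ⟨w0, h2, ?_, h4, h5⟩
      simp only [vl, go_append, go, h3]

lemma phi_valid {T : ℤ} (hT : 1 ≤ T) (hF : ∀ t ∈ F, Br T t) (hβ : 0 < β) (s : List (Fin 4))
    (h : phi F β s ≠ 0) : IsHalfWalk (vl s) := by
  have hQ : Q F β (st F s) ≠ 0 := fun h0 => h (by simp [phi, h0])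
  obtain ⟨w0, h2, h3, h4, h5⟩ := inv_st hT hF hβ s hQ
  obtain ⟨t, ht, x, hx⟩ := Q_ne_zero hQ
  have h6 := (br_concat hT h2 h4 h5 (hF _ ht)).1
  rw [← hx, go_append, ← h3] at h6
  exact halfWalk_vl (h6.suffix (suffix_go _ _))

lemma phi_le {T : ℤ} (hT : 1 ≤ T) (hF : ∀ t ∈ F, Br T t) (hβ : 0 < β)
    (hsum : ∑ t ∈ F, β ^ t.length = 1) :
    ∃ C : ℝ, 0 ≤ C ∧ ∀ s, phi F β s ≤ C * β ^ s.length := by
  have hnn : ∀ t : List (Fin 4), 0 ≤ ∑ i ∈ Finset.range (t.length + 1), 1 / β ^ i := fun t =>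
    Finset.sum_nonneg fun i _ => by positivity
  have hC : 0 ≤ ∑ t ∈ F, ∑ i ∈ Finset.range (t.length + 1), 1 / β ^ i :=
    Finset.sum_nonneg fun t _ => hnn t
  refine ⟨∑ t ∈ F, ∑ i ∈ Finset.range (t.length + 1), 1 / β ^ i, hC, fun s => ?_⟩
  by_cases hQ : Q F β (st F s) = 0
  · rw [phi, hQ, mul_zero]; exact mul_nonneg hC (pow_pos hβ _).le
  · obtain ⟨t, ht, h⟩ := Q_ne_zero hQ
    have h1 : 1 / β ^ (st F s).length ≤
        ∑ t ∈ F, ∑ i ∈ Finset.range (t.length + 1), 1 / β ^ i := by
      refine le_trans ?_ (Finset.single_le_sum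
        (f := fun t : List (Fin 4) => ∑ i ∈ Finset.range (t.length + 1), 1 / β ^ i)
        (fun t _ => hnn t) ht)
      refine Finset.single_le_sum (f := fun i => 1 / β ^ i) (fun i _ => by positivity) ?_
      have := h.length_le
      simp only [Finset.mem_range]
      omega
    calc phi F β s ≤ β ^ s.length / β ^ (st F s).length * 1 := by
          unfold phi
          gcongr
          exact Q_le hβ hsum _
      _ = 1 / β ^ (st F s).length * β ^ s.length := by ring
      _ ≤ _ := by gcongr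

lemma level_sum {T : ℤ} (hT : 1 ≤ T) (hF : ∀ t ∈ F, Br T t) (hβ : 0 < β)
    (hsum : ∑ t ∈ F, β ^ t.length = 1) (n : ℕ) :
    ∑' s : List (Fin 4), (if s.length = n then ENNReal.ofReal (phi F β s) else 0) = 1 := by
  induction n with
  | zero =>
    rw [tsum_list]
    simp [phi, st, Q_nil hsum]
  | succ n ih =>
    rw [tsum_list, ← ih, ← Summable.tsum_finsetSum (fun _ _ => ENNReal.summable)]
    simp only [List.length_nil, List.length_cons, add_left_inj]
    rw [if_neg (by omega), zero_add]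
    refine tsum_congr fun s => ?_
    split_ifs with h
    · rw [phi_split hT hF hβ hsum s, ENNReal.ofReal_sum_of_nonneg fun d _ => phi_nonneg hβ _]
    · simp

lemma phi_summable {T : ℤ} (hT : 1 ≤ T) (hF : ∀ t ∈ F, Br T t) (hβ : 0 < β)
    (hsum : ∑ t ∈ F, β ^ t.length = 1) {ρ : ℝ} (hρ0 : 0 ≤ ρ) (hρ : ρ < 1) :
    Summable (fun s => phi F β s * ρ ^ s.length) := by
  have h1 : ∑' s : List (Fin 4), ENNReal.ofReal (phi F β s * ρ ^ s.length) ≠ ⊤ := by
    have h2 : ∀ s : List (Fin 4), ENNReal.ofReal (phi F β s * ρ ^ s.length) =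
        ∑' n : ℕ, (if s.length = n then ENNReal.ofReal (phi F β s) else 0) *
          ENNReal.ofReal ρ ^ n := by
      intro s
      rw [tsum_eq_single s.length]
      · rw [if_pos rfl, ENNReal.ofReal_mul (phi_nonneg hβ s), ENNReal.ofReal_pow hρ0]
      · intro n hn
        rw [if_neg (Ne.symm hn), zero_mul]
    simp_rw [h2]
    rw [ENNReal.tsum_comm]
    simp_rw [ENNReal.tsum_mul_right, level_sum hT hF hβ hsum, one_mul]
    rw [ENNReal.tsum_geometric, ENNReal.inv_ne_top]
    refine (tsub_pos_iff_lt.mpr ?_).ne'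
    exact ENNReal.ofReal_lt_one.mpr hρ
  have h3 := ENNReal.summable_toReal h1
  refine h3.congr fun s => ?_
  exact ENNReal.toReal_ofReal (mul_nonneg (phi_nonneg hβ s) (by positivity))

theorem flow_of_family {T : ℤ} (hT : 1 ≤ T) (hF : ∀ t ∈ F, Br T t) (hβ : 0 < β)
    (hsum : ∑ t ∈ F, β ^ t.length = 1) {b : ℝ} (hb : β < b) : HasFiniteEnergyFlow b := by
  classical
  have hb0 : 0 < b := hβ.trans hb
  let θ : List V → ℝ := Function.extend vl (phi F β) (fun _ => 0)
  have hθ : ∀ s, θ (vl s) = phi F β s := fun s => vl_injective.extend_apply _ _ s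
  have hθ0 : ∀ w, (¬ ∃ s, vl s = w) → θ w = 0 := fun w hw => Function.extend_apply' _ _ _ hw
  refine ⟨θ, fun w hw => ?_, ?_, fun w hw => ?_, ?_⟩
  · by_cases h : ∃ s, vl s = w
    · obtain ⟨s, rfl⟩ := h
      rw [hθ]
      by_contra h1
      exact hw (phi_valid hT hF hβ s h1)
    · exact hθ0 w h
  · have := hθ []
    simp only [vl] at this
    rw [this]
    simp [phi, st, Q_nil hsum]
  · obtain ⟨s, rfl⟩ := exists_vl hw.2.1 hw.2.2.1
    rw [hθ, phi_split hT hF hβ hsum s, Fin.sum_univ_four, ← hθ, ← hθ, ← hθ, ← hθ]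
    simp [vl, child, dir, hd, add_assoc]
  · refine (vl_injective.summable_iff (fun w hw => ?_)).mp ?_
    · rw [hθ0 w hw]; simp
    · obtain ⟨C, hC0, hC⟩ := phi_le hT hF hβ hsum
      have hs := (phi_summable hT hF hβ hsum (ρ := β / b) (by positivity)
        ((div_lt_one hb0).mpr hb)).mul_left (C / b)
      refine Summable.of_nonneg_of_le (fun s => by simp only [Function.comp]; positivity)
        (fun s => ?_) hs
      simp only [Function.comp, hθ, length_vl]
      have h1 := hC s
      have h2 := phi_nonneg (F := F) hβ s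
      calc phi F β s ^ 2 / b ^ (s.length + 1)
          = phi F β s * phi F β s / b ^ (s.length + 1) := by ring
        _ ≤ phi F β s * (C * β ^ s.length) / b ^ (s.length + 1) := by gcongr
        _ = _ := by rw [div_pow]; field_simp; ring

end construction

theorem W_le {c : ℝ} (hc : 0 < c) (h : ∀ b, 0 < b → b < c → ¬ HasFiniteEnergyFlow b)
    (T : ℤ) (hT : 1 ≤ T) : W (ENNReal.ofReal c) T ≤ 1 := by
  classical
  by_contra hW
  push Not at hW
  unfold W at hW
  rw [ENNReal.tsum_eq_iSup_sum, lt_iSup_iff] at hW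
  obtain ⟨G, hG⟩ := hW
  let F := G.filter (Br T)
  have hF : ∀ t ∈ F, Br T t := fun t ht => (Finset.mem_filter.mp ht).2
  have h1 : 1 < ∑ t ∈ F, c ^ t.length := by
    rw [← Finset.sum_filter] at hG
    have h2 : ∑ t ∈ F, ENNReal.ofReal c ^ t.length = ENNReal.ofReal (∑ t ∈ F, c ^ t.length) := by
      rw [ENNReal.ofReal_sum_of_nonneg fun t _ => by positivity]
      exact Finset.sum_congr rfl fun t _ => (ENNReal.ofReal_pow hc.le _).symm
    exact ENNReal.one_lt_ofReal.mp (h2 ▸ hG)
  let P : ℝ → ℝ := fun x => ∑ t ∈ F, x ^ t.length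
  have hP : Continuous P := by fun_prop
  have hP0 : P 0 = 0 := Finset.sum_eq_zero fun t ht => by
    have : t ≠ [] := fun h0 => br_ne_nil hT (h0 ▸ hF t ht)
    exact zero_pow (by simpa using this)
  obtain ⟨β, hβ, hβ1⟩ := intermediate_value_Ioo hc.le hP.continuousOn
    (show (1 : ℝ) ∈ Set.Ioo (P 0) (P c) from ⟨by rw [hP0]; exact one_pos, h1⟩)
  exact h ((β + c) / 2) (by linarith [hβ.1]) (by linarith [hβ.2])
    (flow_of_family hT hF hβ.1 hβ1 (by linarith [hβ.2]))

theorem main {c : ℝ} (hc : 0 < c) (h : ∀ b, 0 < b → b < c → ¬ HasFiniteEnergyFlow b) :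
    ¬ HasFiniteEnergyFlow c := by
  rintro ⟨θ, h0, h1, h2, h3⟩
  have hc0 : ENNReal.ofReal c ≠ 0 := by simpa using hc
  have hN := null_half hc0 ENNReal.ofReal_ne_top (W_le hc h)
  let g : List V → ℝ≥0∞ := fun w => ENNReal.ofReal |θ w|
  have hv : ∀ w, g w ≠ 0 → IsHalfWalk w := fun w hw => by
    by_contra h4
    exact hw (by simp [g, h0 w h4])
  have hg : Sub (ENNReal.ofReal c) g := by
    refine ⟨?_, fun w hw => (hv w hw).1, fun w => ?_, ?_⟩
    · by_contra h4
      have := (hv _ h4).2.1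
      simp at this
    · by_cases hw : IsHalfWalk w
      · simp only [g]
        rw [← ENNReal.ofReal_sum_of_nonneg fun d _ => abs_nonneg _]
        refine ENNReal.ofReal_le_ofReal ?_
        refine le_trans (le_of_eq ?_) (Finset.abs_sum_le_sum_abs _ _)
        rw [h2 w hw, Fin.sum_univ_four]
        simp [child, dir, hd, add_assoc]
      · simp [g, h0 w hw]
    · refine ne_of_eq_of_ne (tsum_congr fun w => ?_) h3.tsum_ofReal_ne_top
      simp only [g]
      rw [ENNReal.ofReal_div_of_pos (by positivity), ← ENNReal.ofReal_pow (abs_nonneg _),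
        ← ENNReal.ofReal_pow hc.le, sq_abs]
  have h5 := hN g hg (fun w hw => by
    have h6 := hv w hw
    have hne : w ≠ [] := by
      rintro rfl
      have := h6.2.1
      simp at this
    exact h6.2.2.2 _ (hd_mem hne)) [(0, 0)]
  simp [g, h1] at h5

end Pool.Agent.H865Z.Saw
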